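import Mathlib

/-!
# MP_d975fc_co: the regular pentagon maximises the product of pairwise distances
-/

open Finset

namespace Pool.Agent.Results.MP_d975fc_co.Pentagon

/-- `Δ(z) = ∏_{i ≠ j} |z_i - z_j|`, the product over all ordered pairs -/
noncomputable def Delta {n : ℕ} (z : Fin n → ℂ) : ℝ :=
  ∏ i, ∏ j ∈ univ.erase i, ‖z i - z j‖

/-- the constraint `|z_i - z_j| ≤ 2` for all `i, j` -/
def Adm {n : ℕ} (z : Fin n → ℂ) : Prop := ∀ i j, ‖z i - z j‖ ≤ 2

/-- `z` is a maximiser of `Δ` under the constraint -/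
def IsMaximiser {n : ℕ} (z : Fin n → ℂ) : Prop :=
  Adm z ∧ ∀ w : Fin n → ℂ, Adm w → Delta w ≤ Delta z

/-- `z_1, …, z_n` are the vertices of a regular `n`-gon: `z_k = c + r e^{i(θ + 2πk/n)}` for
`k = 1, …, n` (the index `k` is stored as `k - 1`). -/
def IsRegularPolygon {n : ℕ} (z : Fin n → ℂ) : Prop :=
  ∃ (c : ℂ) (r θ : ℝ), 0 ≤ r ∧
    ∀ k : Fin n, z k = c + r * Complex.exp (Complex.I * (θ + 2 * Real.pi * ((k : ℕ) + 1) / n))

lemma Delta_eq {n : ℕ} (z : Fin n → ℂ) :
    Delta z = ∏ i, ∏ j, if i = j then 1 else ‖z i - z j‖ := by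
  unfold Delta
  refine Finset.prod_congr rfl fun i _ => ?_
  have h : (univ.erase i : Finset (Fin n)) = univ.filter (fun j => ¬ (i = j)) := by
    ext j
    simp [eq_comm]
  rw [h, Finset.prod_filter]
  refine Finset.prod_congr rfl fun j _ => ?_
  split_ifs <;> rfl

lemma Delta_perm {n : ℕ} (z : Fin n → ℂ) (σ : Equiv.Perm (Fin n)) :
    Delta (z ∘ σ) = Delta z := by
  rw [Delta_eq, Delta_eq]
  rw [← Equiv.prod_comp σ (fun i => ∏ j, if i = j then 1 else ‖z i - z j‖)]
  refine Finset.prod_congr rfl fun i _ => ?_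
  rw [← Equiv.prod_comp σ (fun j => if σ i = j then 1 else ‖z (σ i) - z j‖)]
  refine Finset.prod_congr rfl fun j _ => ?_
  simp

lemma Delta_continuous (n : ℕ) : Continuous (Delta (n := n)) := by
  unfold Delta
  refine continuous_finsetProd _ fun i _ => continuous_finsetProd _ fun j _ => ?_
  exact ((continuous_apply i).sub (continuous_apply j)).norm

lemma exists_maximiser (n : ℕ) : ∃ z : Fin (n + 1) → ℂ, IsMaximiser z := by
  have hclosed : IsClosed {z : Fin (n + 1) → ℂ | z 0 = 0 ∧ Adm z} := by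
    have h1 : {z : Fin (n + 1) → ℂ | z 0 = 0 ∧ Adm z} =
        {z | z 0 = 0} ∩ ⋂ i, ⋂ j, {z | ‖z i - z j‖ ≤ 2} := by
      ext z
      simp [Adm]
    rw [h1]
    exact (isClosed_eq (continuous_apply 0) continuous_const).inter
      (isClosed_iInter fun i => isClosed_iInter fun j =>
        isClosed_le ((continuous_apply i).sub (continuous_apply j)).norm continuous_const)
  have hsub : {z : Fin (n + 1) → ℂ | z 0 = 0 ∧ Adm z} ⊆ Metric.closedBall 0 2 := by
    rintro z ⟨h0, hz⟩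
    rw [mem_closedBall_zero_iff, pi_norm_le_iff_of_nonneg (by norm_num)]
    intro i
    have := hz i 0
    rwa [h0, sub_zero] at this
  have hcomp := (isCompact_closedBall (0 : Fin (n + 1) → ℂ) 2).of_isClosed_subset hclosed hsub
  obtain ⟨z, hz, hmax⟩ := hcomp.exists_isMaxOn ⟨0, rfl, fun i j => by simp⟩
    (Delta_continuous (n + 1)).continuousOn
  refine ⟨z, hz.2, fun w hw => ?_⟩
  have h1 : (fun i => w i - w 0) ∈ {z : Fin (n + 1) → ℂ | z 0 = 0 ∧ Adm z} := by
    refine ⟨by simp, fun i j => ?_⟩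
    have := hw i j
    simpa using this
  have h2 := hmax h1
  have h3 : Delta (fun i => w i - w 0) = Delta w := by
    unfold Delta
    simp
  rw [← h3]
  exact h2

lemma injective_of_pos {n : ℕ} {z : Fin n → ℂ} (h : 0 < Delta z) : Function.Injective z := by
  intro i j hij
  by_contra hne
  have h0 : Delta z = 0 := by
    unfold Delta
    apply Finset.prod_eq_zero (Finset.mem_univ i)
    apply Finset.prod_eq_zero (i := j)
    · simp [Ne.symm hne]
    · simp [hij]
  linarith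

/-- at a maximiser every point has another point at distance exactly `2` -/
lemma partner {n : ℕ} {z : Fin n → ℂ} (hn : 2 ≤ n) (hz : IsMaximiser z) (hpos : 0 < Delta z)
    (i : Fin n) : ∃ j, ‖z i - z j‖ = 2 := by
  classical
  by_contra hcon
  push Not at hcon
  have hlt : ∀ j, ‖z i - z j‖ < 2 := fun j => lt_of_le_of_ne (hz.1 i j) (hcon j)
  let F : ℂ → ℂ := fun w => ∏ a, ∏ b ∈ univ.erase a,
    (Function.update z i w a - Function.update z i w b)
  have hFn : ∀ w, ‖F w‖ = Delta (Function.update z i w) := by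
    intro w
    simp only [F, Delta, norm_prod]
  have hF0 : ‖F (z i)‖ = Delta z := by rw [hFn, Function.update_eq_self]
  have hnear : ∀ᶠ w in nhds (z i), ∀ j, ‖w - z j‖ < 2 := by
    rw [Filter.eventually_all]
    intro j
    have : ContinuousAt (fun w : ℂ => ‖w - z j‖) (z i) := by fun_prop
    exact this.eventually_lt continuousAt_const (hlt j)
  have hmax : IsLocalMax (norm ∘ F) (z i) := by
    filter_upwards [hnear] with w hw
    simp only [Function.comp]
    rw [hFn, hF0]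
    apply hz.2
    intro a b
    by_cases ha : a = i
    · by_cases hb : b = i
      · rw [ha, hb]; simp
      · rw [ha, Function.update_self, Function.update_of_ne hb]
        exact (hw b).le
    · by_cases hb : b = i
      · rw [hb, Function.update_self, Function.update_of_ne ha, norm_sub_rev]
        exact (hw a).le
      · rw [Function.update_of_ne ha, Function.update_of_ne hb]
        exact hz.1 a b
  have hupd : ∀ a, Differentiable ℂ (fun w : ℂ => Function.update z i w a) := by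
    intro a
    by_cases ha : a = i
    · subst ha; simp only [Function.update_self]; exact differentiable_id
    · simp only [Function.update_of_ne ha]; exact differentiable_const _
  have hdiff : Differentiable ℂ F := by
    refine Differentiable.fun_finsetProd fun a _ => Differentiable.fun_finsetProd fun b _ => ?_
    exact (hupd a).sub (hupd b)
  have hloc := Complex.eventually_eq_of_isLocalMax_norm
    (Filter.Eventually.of_forall fun w => hdiff w) hmax
  have hconst : F = fun _ => F (z i) := by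
    have hF1 : AnalyticOnNhd ℂ F Set.univ := fun w _ => hdiff.analyticAt w
    have hF2 : AnalyticOnNhd ℂ (fun _ : ℂ => F (z i)) Set.univ := fun w _ => analyticAt_const
    exact hF1.eq_of_eventuallyEq hF2 hloc
  obtain ⟨j, hj⟩ : ∃ j : Fin n, j ≠ i := by
    have : Nontrivial (Fin n) := Fin.nontrivial_iff_two_le.2 hn
    exact exists_ne i
  have hzero : F (z j) = 0 := by
    simp only [F]
    apply Finset.prod_eq_zero (Finset.mem_univ i)
    apply Finset.prod_eq_zero (i := j)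
    · simp [hj]
    · rw [Function.update_self, Function.update_of_ne hj, sub_self]
  have h1 : F (z j) = F (z i) := congrFun hconst (z j)
  rw [← h1, hzero, norm_zero] at hF0
  linarith


/-- twice the signed area of the triangle `a b c` -/
def orient (a b c : ℂ) : ℝ := (b.re - a.re) * (c.im - a.im) - (b.im - a.im) * (c.re - a.re)

lemma norm_sq_eq (w : ℂ) : ‖w‖ ^ 2 = w.re ^ 2 + w.im ^ 2 := by
  rw [Complex.sq_norm, Complex.normSq_apply]; ring

lemma nohull_real {α β γ px py ax ay bx bY cx cy : ℝ} (hα : 0 ≤ α) (hβ : 0 < β) (hγ : 0 ≤ γ)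
    (hP : px ^ 2 + py ^ 2 = 4) (hA : ax ^ 2 + ay ^ 2 ≤ 4) (hB : bx ^ 2 + bY ^ 2 ≤ 4)
    (hC : cx ^ 2 + cy ^ 2 ≤ 4) (h1 : (α + β + γ) * px = α * ax + β * bx + γ * cx)
    (h2 : (α + β + γ) * py = α * ay + β * bY + γ * cy) : bx = px ∧ bY = py := by
  have h3 : (α + β + γ) * (px ^ 2 + py ^ 2) = α * (ax * px + ay * py) +
      β * (bx * px + bY * py) + γ * (cx * px + cy * py) := by
    linear_combination px * h1 + py * h2
  have h4 : ax * px + ay * py ≤ 4 := by nlinarith [sq_nonneg (ax - px), sq_nonneg (ay - py)]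
  have h5 : cx * px + cy * py ≤ 4 := by nlinarith [sq_nonneg (cx - px), sq_nonneg (cy - py)]
  have h6 : α * (ax * px + ay * py) ≤ α * 4 := mul_le_mul_of_nonneg_left h4 hα
  have h7 : γ * (cx * px + cy * py) ≤ γ * 4 := mul_le_mul_of_nonneg_left h5 hγ
  have h8 : β * 4 ≤ β * (bx * px + bY * py) := by
    rw [hP] at h3
    linarith
  have h9 : 4 ≤ bx * px + bY * py := le_of_mul_le_mul_left h8 hβ
  have h10 : (bx - px) ^ 2 + (bY - py) ^ 2 ≤ 0 := by linarith [hP, hB, h9, sq_nonneg (bx - px),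
    (by ring : (bx - px) ^ 2 + (bY - py) ^ 2 = bx ^ 2 + bY ^ 2 + (px ^ 2 + py ^ 2) -
      2 * (bx * px + bY * py))]
  have h11 : (bx - px) ^ 2 = 0 := le_antisymm (by linarith [sq_nonneg (bY - py)]) (sq_nonneg _)
  have h12 : (bY - py) ^ 2 = 0 := le_antisymm (by linarith [sq_nonneg (bx - px)]) (sq_nonneg _)
  have h13 := pow_eq_zero_iff (two_ne_zero) |>.1 h11
  have h14 := pow_eq_zero_iff (two_ne_zero) |>.1 h12
  exact ⟨by linarith, by linarith⟩

/-- a point having a partner at distance `2` is not in the convex hull of the others -/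
lemma nohull {n : ℕ} {z : Fin n → ℂ} (hadm : Adm z) {i j : Fin n} (hij : ‖z i - z j‖ = 2)
    {a b c : Fin n} {α β γ : ℝ} (hα : 0 ≤ α) (hβ : 0 < β) (hγ : 0 ≤ γ)
    (hre : (α + β + γ) * (z i).re = α * (z a).re + β * (z b).re + γ * (z c).re)
    (him : (α + β + γ) * (z i).im = α * (z a).im + β * (z b).im + γ * (z c).im) :
    z b = z i := by
  have hP := norm_sq_eq (z i - z j)
  rw [hij] at hP
  simp only [Complex.sub_re, Complex.sub_im] at hP
  have hk : ∀ k, ((z k).re - (z j).re) ^ 2 + ((z k).im - (z j).im) ^ 2 ≤ 4 := by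
    intro k
    have h1 := norm_sq_eq (z k - z j)
    simp only [Complex.sub_re, Complex.sub_im] at h1
    rw [← h1]
    nlinarith [hadm k j, norm_nonneg (z k - z j)]
  obtain ⟨h1, h2⟩ := nohull_real (px := (z i).re - (z j).re) (py := (z i).im - (z j).im)
    hα hβ hγ (by linarith) (hk a) (hk b) (hk c) (by linarith) (by linarith)
  apply Complex.ext
  · linarith
  · linarith

lemma exists_order {z : Fin 5 → ℂ} (hadm : Adm z) (hinj : Function.Injective z)
    (hpart : ∀ i, ∃ j, ‖z i - z j‖ = 2) :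
    ∃ σ : Equiv.Perm (Fin 5), ∀ i j k, i < j → j < k →
      0 < orient (z (σ i)) (z (σ j)) (z (σ k)) := by
  obtain ⟨q, hq⟩ := hpart 0
  set ux := (z q).re - (z 0).re with hux
  set uy := (z q).im - (z 0).im with huy
  have hu : ux ^ 2 + uy ^ 2 = 4 := by
    have h := norm_sq_eq (z 0 - z q)
    rw [hq] at h
    simp only [Complex.sub_re, Complex.sub_im] at h
    rw [hux, huy]; linarith
  let R : Fin 5 → ℝ := fun k => ((z k).re - (z 0).re) * ux + ((z k).im - (z 0).im) * uy
  let I : Fin 5 → ℝ := fun k => ux * ((z k).im - (z 0).im) - uy * ((z k).re - (z 0).re)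
  have hRpos : ∀ k, k ≠ 0 → 0 < R k := by
    intro k hk
    have h1 := norm_sq_eq (z k - z q)
    have h2 : ‖z k - z q‖ ^ 2 ≤ 4 := by nlinarith [hadm k q, norm_nonneg (z k - z q)]
    simp only [Complex.sub_re, Complex.sub_im] at h1
    have h3 : 0 < ((z k).re - (z 0).re) ^ 2 + ((z k).im - (z 0).im) ^ 2 := by
      have h4 : 0 < ‖z k - z 0‖ := by
        rw [norm_pos_iff, sub_ne_zero]
        exact fun h => hk (hinj h)
      have h5 := norm_sq_eq (z k - z 0)
      simp only [Complex.sub_re, Complex.sub_im] at h5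
      rw [← h5]; positivity
    simp only [R]
    rw [hux, huy] at *
    nlinarith
  have hcross : ∀ a b, 4 * orient (z 0) (z a) (z b) = R a * I b - R b * I a := by
    intro a b
    simp only [R, I, orient]
    linear_combination (-((z a).re - (z 0).re) * ((z b).im - (z 0).im) +
      ((z a).im - (z 0).im) * ((z b).re - (z 0).re)) * hu
  let f : Fin 5 → ℝ := fun k => I k / R k
  -- weakly sorted implies strictly positively oriented
  have hstrict : ∀ a b, a ≠ 0 → b ≠ 0 → a ≠ b → f a ≤ f b → 0 < orient (z 0) (z a) (z b) := by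
    intro a b ha hb hab hf
    have hRa := hRpos a ha
    have hRb := hRpos b hb
    have h1 : I a * R b ≤ I b * R a := by
      simp only [f] at hf
      rwa [div_le_div_iff₀ hRa hRb] at hf
    have h2 : 0 ≤ orient (z 0) (z a) (z b) := by
      have := hcross a b
      nlinarith
    rcases h2.lt_or_eq with h3 | h3
    · exact h3
    · exfalso
      have h4 : R a * I b = R b * I a := by
        have := hcross a b
        rw [← h3] at this; linarith
      have key : ∀ c : Fin 5, ux * R c - uy * I c = 4 * ((z c).re - (z 0).re) ∧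
          uy * R c + ux * I c = 4 * ((z c).im - (z 0).im) := by
        intro c
        simp only [R, I]
        constructor
        · linear_combination ((z c).re - (z 0).re) * hu
        · linear_combination ((z c).im - (z 0).im) * hu
      have h5 : R b * ((z a).re - (z 0).re) = R a * ((z b).re - (z 0).re) := by
        have ka := (key a).1
        have kb := (key b).1
        linear_combination (1/4) * (R a * kb - R b * ka + uy * h4)
      have h6 : R b * ((z a).im - (z 0).im) = R a * ((z b).im - (z 0).im) := by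
        have ka := (key a).2
        have kb := (key b).2
        linear_combination (1/4) * (R a * kb - R b * ka - ux * h4)
      rcases le_total (R a) (R b) with h7 | h7
      · obtain ⟨p, hp⟩ := hpart a
        have h8 := nohull hadm hp (a := 0) (b := b) (c := 0) (α := R b - R a) (β := R a) (γ := 0)
          (by linarith) hRa le_rfl (by linarith) (by linarith)
        exact hab (hinj h8).symm
      · obtain ⟨p, hp⟩ := hpart b
        have h8 := nohull hadm hp (a := 0) (b := a) (c := 0) (α := R a - R b) (β := R b) (γ := 0)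
          (by linarith) hRb le_rfl (by linarith) (by linarith)
        exact hab (hinj h8)
  let τ : Equiv.Perm (Fin 4) := Tuple.sort (fun k : Fin 4 => f k.succ)
  have hτ : Monotone ((fun k : Fin 4 => f k.succ) ∘ τ) := Tuple.monotone_sort _
  let σ : Equiv.Perm (Fin 5) := Equiv.Perm.decomposeFin.symm (0, τ)
  have hσ0 : σ 0 = 0 := by simp [σ]
  have hσs : ∀ k : Fin 4, σ k.succ = (τ k).succ := by
    intro k
    simp [σ]
  have hpos0 : ∀ j k : Fin 4, j < k → 0 < orient (z 0) (z (σ j.succ)) (z (σ k.succ)) := by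
    intro j k hjk
    rw [hσs, hσs]
    apply hstrict _ _ (Fin.succ_ne_zero _) (Fin.succ_ne_zero _)
    · intro h
      have h2 := Fin.succ_injective _ h
      exact hjk.ne (τ.injective h2)
    · exact hτ hjk.le
  refine ⟨σ, fun i j k hij hjk => ?_⟩
  obtain ⟨j', rfl⟩ : ∃ j', j = Fin.succ j' := Fin.exists_succ_eq.2 (by
    rintro rfl; exact absurd hij (Fin.not_lt_zero i)) |>.imp fun _ h => h.symm
  obtain ⟨k', rfl⟩ : ∃ k', k = Fin.succ k' := Fin.exists_succ_eq.2 (by
    rintro rfl; exact absurd hjk (Fin.not_lt_zero _)) |>.imp fun _ h => h.symm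
  have hjk' : j' < k' := Fin.succ_lt_succ_iff.1 hjk
  by_cases hi : i = 0
  · subst hi
    rw [hσ0]
    exact hpos0 j' k' hjk'
  · obtain ⟨i', rfl⟩ : ∃ i', i = Fin.succ i' := Fin.exists_succ_eq.2 hi |>.imp fun _ h => h.symm
    have hij' : i' < j' := Fin.succ_lt_succ_iff.1 hij
    by_contra hneg
    push Not at hneg
    have h1 := hpos0 i' j' hij'
    have h2 := hpos0 j' k' hjk'
    obtain ⟨p, hp⟩ := hpart (σ j'.succ)
    have h8 := nohull hadm hp (a := 0) (b := σ i'.succ) (c := σ k'.succ)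
      (α := - orient (z (σ i'.succ)) (z (σ j'.succ)) (z (σ k'.succ)))
      (β := orient (z 0) (z (σ j'.succ)) (z (σ k'.succ)))
      (γ := orient (z 0) (z (σ i'.succ)) (z (σ j'.succ)))
      (by linarith) h2 h1.le (by simp only [orient]; ring) (by simp only [orient]; ring)
    have h9 := σ.injective (hinj h8)
    exact hij.ne h9

/-- opposite sides of a convex quadrilateral -/
lemma quad {a b c d : ℂ} (habc : 0 < orient a b c) (habd : 0 < orient a b d)
    (hacd : 0 < orient a c d) (hbcd : 0 < orient b c d) (hab : ‖a - b‖ ≤ 2) (hcd : ‖c - d‖ ≤ 2)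
    (had : ‖a - d‖ ≤ 2) (hcb : ‖c - b‖ ≤ 2) : ‖a - b + c - d‖ ≤ 2 := by
  set w := a - b + c - d with hw
  let X : ℂ → ℝ := fun p => p.re * w.re + p.im * w.im
  have hX : X a - X b + X c - X d = ‖w‖ ^ 2 := by
    rw [norm_sq_eq]
    simp only [X, hw, Complex.sub_re, Complex.sub_im, Complex.add_re, Complex.add_im]
    ring
  have hCS : ∀ p q : ℂ, ‖p - q‖ ≤ 2 → X p - X q ≤ 2 * ‖w‖ := by
    intro p q hpq
    have h1 : X p - X q = ((p - q) * (starRingEnd ℂ) w).re := by
      simp only [X, Complex.mul_re, Complex.conj_re, Complex.conj_im, Complex.sub_re,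
        Complex.sub_im]
      ring
    rw [h1]
    calc ((p - q) * (starRingEnd ℂ) w).re ≤ ‖(p - q) * (starRingEnd ℂ) w‖ := Complex.re_le_norm _
      _ = ‖p - q‖ * ‖w‖ := by rw [norm_mul, RCLike.norm_conj]
      _ ≤ 2 * ‖w‖ := mul_le_mul_of_nonneg_right hpq (norm_nonneg _)
  have hid : orient b c d * X a + orient a b d * X c = orient a c d * X b + orient a b c * X d := by
    simp only [X, orient]
    ring
  have hsum : orient b c d + orient a b d = orient a c d + orient a b c := by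
    simp only [orient]
    ring
  have hfin : ‖w‖ ^ 2 ≤ 2 * ‖w‖ → ‖w‖ ≤ 2 := by
    intro h
    by_contra h2
    push Not at h2
    nlinarith
  apply hfin
  rw [← hX]
  by_contra hcon
  push Not at hcon
  have h1 := hCS a b hab
  have h2 := hCS c d hcd
  have h3 := hCS a d had
  have h4 := hCS c b hcb
  have h5 : X d < X c := by linarith
  have h6 : X b < X a := by linarith
  have h7 : X b < X c := by linarith
  have h8 : X d < X a := by linarith
  rcases le_total (X b) (X d) with h | h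
  · -- X d is the maximum of the two
    have e1 : orient b c d * (X a - X d) + orient a b d * (X c - X d) =
        orient a c d * (X b - X d) := by
      linear_combination hid - X d * hsum
    have e2 : 0 < orient b c d * (X a - X d) := mul_pos hbcd (by linarith)
    have e3 : 0 < orient a b d * (X c - X d) := mul_pos habd (by linarith)
    have e4 : orient a c d * (X b - X d) ≤ 0 :=
      mul_nonpos_of_nonneg_of_nonpos hacd.le (by linarith)
    linarith
  · have e1 : orient b c d * (X a - X b) + orient a b d * (X c - X b) =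
        orient a b c * (X d - X b) := by
      linear_combination hid - X b * hsum
    have e2 : 0 < orient b c d * (X a - X b) := mul_pos hbcd (by linarith)
    have e3 : 0 < orient a b d * (X c - X b) := mul_pos habd (by linarith)
    have e4 : orient a b c * (X d - X b) ≤ 0 :=
      mul_nonpos_of_nonneg_of_nonpos habc.le (by linarith)
    linarith

lemma CS {X Y u v s : ℝ} (h : X ^ 2 + Y ^ 2 ≤ 16) (h2 : u ^ 2 + v ^ 2 = 4 * s ^ 2) (hs : 0 ≤ s) :
    X * u + Y * v ≤ 8 * s := by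
  have h4 : (X * u + Y * v) ^ 2 ≤ (X ^ 2 + Y ^ 2) * (u ^ 2 + v ^ 2) := by
    nlinarith [sq_nonneg (X * v - Y * u)]
  have h5 : (X ^ 2 + Y ^ 2) * (u ^ 2 + v ^ 2) ≤ 16 * (4 * s ^ 2) := by
    rw [h2]; exact mul_le_mul_of_nonneg_right h (by positivity)
  have h3 : (X * u + Y * v) ^ 2 ≤ (8 * s) ^ 2 := by nlinarith
  exact le_of_abs_le (abs_le_of_sq_le_sq h3 (by positivity))

/-- the perimeter lemma for sorted directions -/
lemma sorted5 (r a : Fin 5 → ℝ) (ha : Monotone a) (h0 : 0 ≤ a 0)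
    (hπ : a 4 ≤ Real.pi)
    (h : ∀ s : Fin 5 → ℝ, (∀ i, s i = 1 ∨ s i = -1) →
      (∑ i, s i * (r i * Real.cos (a i))) ^ 2 + (∑ i, s i * (r i * Real.sin (a i))) ^ 2 ≤ 16) :
    ∑ i, r i ≤ 20 * Real.sin (Real.pi / 10) := by
  have h01 : a 0 ≤ a 1 := ha (by decide)
  have h12 : a 1 ≤ a 2 := ha (by decide)
  have h23 : a 2 ≤ a 3 := ha (by decide)
  have h34 : a 3 ≤ a 4 := ha (by decide)
  have hpi := Real.pi_pos
  have chord : ∀ x y : ℝ, (Real.cos x - Real.cos y) ^ 2 + (Real.sin x - Real.sin y) ^ 2 =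
      4 * Real.sin ((y - x) / 2) ^ 2 := by
    intro x y
    have h1 : Real.cos (y - x) = 1 - 2 * Real.sin ((y - x) / 2) ^ 2 := by
      have := Real.cos_two_mul ((y - x) / 2)
      rw [mul_div_cancel₀ _ (two_ne_zero)] at this
      rw [this, Real.cos_sq']; ring
    have h2 := Real.cos_sub y x
    nlinarith [Real.sin_sq_add_cos_sq x, Real.sin_sq_add_cos_sq y]
  have chord2 : ∀ x y : ℝ, (Real.cos x + Real.cos y) ^ 2 + (Real.sin x + Real.sin y) ^ 2 =
      4 * Real.cos ((y - x) / 2) ^ 2 := by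
    intro x y
    have h1 : Real.cos (y - x) = 2 * Real.cos ((y - x) / 2) ^ 2 - 1 := by
      have := Real.cos_two_mul ((y - x) / 2)
      rw [mul_div_cancel₀ _ (two_ne_zero)] at this
      exact this
    have h2 := Real.cos_sub y x
    nlinarith [Real.sin_sq_add_cos_sq x, Real.sin_sq_add_cos_sq y]
  have hsin : ∀ x y : ℝ, x ≤ y → y - x ≤ 2 * Real.pi → 0 ≤ Real.sin ((y - x) / 2) := by
    intro x y hxy hyx
    exact Real.sin_nonneg_of_nonneg_of_le_pi (by linarith) (by linarith)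
  have e1 := CS (h ![1, -1, -1, -1, -1] (by intro i; fin_cases i <;> simp))
    (chord (a 0) (a 1)) (hsin _ _ h01 (by linarith))
  have e2 := CS (h ![1, 1, -1, -1, -1] (by intro i; fin_cases i <;> simp))
    (chord (a 1) (a 2)) (hsin _ _ h12 (by linarith))
  have e3 := CS (h ![1, 1, 1, -1, -1] (by intro i; fin_cases i <;> simp))
    (chord (a 2) (a 3)) (hsin _ _ h23 (by linarith))
  have e4 := CS (h ![1, 1, 1, 1, -1] (by intro i; fin_cases i <;> simp))
    (chord (a 3) (a 4)) (hsin _ _ h34 (by linarith))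
  have e5 := CS (h ![1, 1, 1, 1, 1] (by intro i; fin_cases i <;> simp))
    (chord2 (a 0) (a 4)) (Real.cos_nonneg_of_neg_pi_div_two_le_of_le (by linarith) (by linarith))
  simp only [Fin.sum_univ_five, Matrix.cons_val_zero, Matrix.cons_val_one, Matrix.cons_val,
    one_mul, neg_mul] at e1 e2 e3 e4 e5
  have hsum : 2 * ∑ i, r i ≤ 8 * (Real.sin ((a 1 - a 0) / 2) + Real.sin ((a 2 - a 1) / 2) +
      Real.sin ((a 3 - a 2) / 2) + Real.sin ((a 4 - a 3) / 2) + Real.cos ((a 4 - a 0) / 2)) := by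
    rw [Fin.sum_univ_five]
    have i0 := Real.sin_sq_add_cos_sq (a 0)
    have i1 := Real.sin_sq_add_cos_sq (a 1)
    have i2 := Real.sin_sq_add_cos_sq (a 2)
    have i3 := Real.sin_sq_add_cos_sq (a 3)
    have i4 := Real.sin_sq_add_cos_sq (a 4)
    have j : 2 * (r 0 + r 1 + r 2 + r 3 + r 4) = 2 * (r 0 * (Real.sin (a 0) ^ 2 + Real.cos (a 0) ^ 2) +
      r 1 * (Real.sin (a 1) ^ 2 + Real.cos (a 1) ^ 2) +
      r 2 * (Real.sin (a 2) ^ 2 + Real.cos (a 2) ^ 2) +
      r 3 * (Real.sin (a 3) ^ 2 + Real.cos (a 3) ^ 2) +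
      r 4 * (Real.sin (a 4) ^ 2 + Real.cos (a 4) ^ 2)) := by
      rw [i0, i1, i2, i3, i4]; ring
    rw [j]
    linarith [e1, e2, e3, e4, e5]
  have hjen : Real.sin ((a 1 - a 0) / 2) + Real.sin ((a 2 - a 1) / 2) +
      Real.sin ((a 3 - a 2) / 2) + Real.sin ((a 4 - a 3) / 2) + Real.cos ((a 4 - a 0) / 2) ≤
      5 * Real.sin (Real.pi / 10) := by
    have hc := strictConcaveOn_sin_Icc.concaveOn
    have hJ := hc.le_map_sum (t := (univ : Finset (Fin 5))) (w := fun _ => (1/5 : ℝ))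
      (p := ![(a 1 - a 0) / 2, (a 2 - a 1) / 2, (a 3 - a 2) / 2, (a 4 - a 3) / 2,
        Real.pi / 2 - (a 4 - a 0) / 2]) (by intro i _; norm_num) (by norm_num)
      (by
        intro i _
        fin_cases i <;> simp <;> constructor <;> linarith)
    simp only [Fin.sum_univ_five, Matrix.cons_val_zero, Matrix.cons_val_one, Matrix.cons_val,
      smul_eq_mul, Real.sin_pi_div_two_sub] at hJ
    have harg : (1 / 5 * ((a 1 - a 0) / 2) + 1 / 5 * ((a 2 - a 1) / 2) + 1 / 5 * ((a 3 - a 2) / 2) +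
      1 / 5 * ((a 4 - a 3) / 2) + 1 / 5 * (Real.pi / 2 - (a 4 - a 0) / 2)) = Real.pi / 10 := by ring
    rw [harg] at hJ
    linarith
  linarith

/-- the perimeter lemma -/
lemma perim5 (e : Fin 5 → ℂ)
    (h : ∀ s : Fin 5 → ℝ, (∀ i, s i = 1 ∨ s i = -1) →
      (∑ i, s i * (e i).re) ^ 2 + (∑ i, s i * (e i).im) ^ 2 ≤ 16) :
    ∑ i, ‖e i‖ ≤ 20 * Real.sin (Real.pi / 10) := by
  have h1 : ∀ i, ∃ c a : ℝ, (c = 1 ∨ c = -1) ∧ 0 ≤ a ∧ a ≤ Real.pi ∧
      (e i).re = c * (‖e i‖ * Real.cos a) ∧ (e i).im = c * (‖e i‖ * Real.sin a) := by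
    intro i
    have hc := Complex.norm_mul_cos_arg (e i)
    have hs := Complex.norm_mul_sin_arg (e i)
    rcases le_or_gt 0 (Complex.arg (e i)) with h2 | h2
    · exact ⟨1, Complex.arg (e i), Or.inl rfl, h2, Complex.arg_le_pi _, by linarith, by linarith⟩
    · refine ⟨-1, Complex.arg (e i) + Real.pi, Or.inr rfl, ?_, ?_, ?_, ?_⟩
      · linarith [Complex.neg_pi_lt_arg (e i)]
      · linarith
      · rw [Real.cos_add_pi]; linarith
      · rw [Real.sin_add_pi]; linarith
  choose c a hc h0 hπ hre him using h1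
  let τ : Equiv.Perm (Fin 5) := Tuple.sort a
  have hτ : Monotone (a ∘ τ) := Tuple.monotone_sort _
  have hcc : ∀ i, c i * c i = 1 := by
    intro i
    rcases hc i with h | h <;> rw [h] <;> norm_num
  have key := sorted5 (fun i => ‖e (τ i)‖) (a ∘ τ) hτ (h0 _) (hπ _) (by
    intro s hs
    have h2 := h (fun j => s (τ.symm j) * c j) (by
      intro j
      rcases hs (τ.symm j) with h | h <;> rcases hc j with h' | h' <;> rw [h, h'] <;> simp)
    rw [← Equiv.sum_comp τ (fun j => s (τ.symm j) * c j * (e j).re),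
      ← Equiv.sum_comp τ (fun j => s (τ.symm j) * c j * (e j).im)] at h2
    have h3 : ∀ i, s (τ.symm (τ i)) * c (τ i) * (e (τ i)).re =
        s i * (‖e (τ i)‖ * Real.cos ((a ∘ τ) i)) := by
      intro i
      rw [Equiv.symm_apply_apply, Function.comp_apply]
      conv_lhs => rw [hre (τ i)]
      linear_combination (s i * (‖e (τ i)‖ * Real.cos (a (τ i)))) * hcc (τ i)
    have h4 : ∀ i, s (τ.symm (τ i)) * c (τ i) * (e (τ i)).im =
        s i * (‖e (τ i)‖ * Real.sin ((a ∘ τ) i)) := by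
      intro i
      rw [Equiv.symm_apply_apply, Function.comp_apply]
      conv_lhs => rw [him (τ i)]
      linear_combination (s i * (‖e (τ i)‖ * Real.sin (a (τ i)))) * hcc (τ i)
    rw [Finset.sum_congr rfl (fun i _ => h3 i), Finset.sum_congr rfl (fun i _ => h4 i)] at h2
    exact h2)
  rw [Equiv.sum_comp τ (fun i => ‖e i‖)] at key
  exact key

lemma fin5 {X Y : ℝ} (ε : ℝ) (u : ℂ) (hu : ‖u‖ ≤ 2) (hε : ε ^ 2 = 4) (hX : X = ε * u.re)
    (hY : Y = ε * u.im) : X ^ 2 + Y ^ 2 ≤ 16 := by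
  have h1 := norm_sq_eq u
  have h2 : ‖u‖ ^ 2 ≤ 4 := by nlinarith [norm_nonneg u]
  rw [hX, hY]
  nlinarith

lemma perimeter {v : Fin 5 → ℂ} (hv : Adm v)
    (ho : ∀ i j k, i < j → j < k → 0 < orient (v i) (v j) (v k)) :
    ∑ i, ‖v (i + 1) - v i‖ ≤ 20 * Real.sin (Real.pi / 10) := by
  have hQ : ∀ a b c d : Fin 5, a < b → b < c → c < d → ‖v a - v b + v c - v d‖ ≤ 2 := by
    intro a b c d hab hbc hcd
    exact quad (ho _ _ _ hab hbc) (ho _ _ _ hab (hbc.trans hcd)) (ho _ _ _ (hab.trans hbc) hcd)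
      (ho _ _ _ hbc hcd) (hv _ _) (hv _ _) (hv _ _) (hv _ _)
  apply perim5
  intro s hs
  simp only [Fin.sum_univ_five]
  have a0 : (0 : Fin 5) + 1 = 1 := rfl
  have a1 : (1 : Fin 5) + 1 = 2 := rfl
  have a2 : (2 : Fin 5) + 1 = 3 := rfl
  have a3 : (3 : Fin 5) + 1 = 4 := rfl
  have a4 : (4 : Fin 5) + 1 = 0 := rfl
  rw [a0, a1, a2, a3, a4]
  rcases hs 0 with h0 | h0 <;> rcases hs 1 with h1 | h1 <;> rcases hs 2 with h2 | h2 <;>
    rcases hs 3 with h3 | h3 <;> rcases hs 4 with h4 | h4 <;> rw [h0, h1, h2, h3, h4]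
  · exact fin5 2 (v 0 - v 0) (hv 0 0) (by norm_num) (by simp) (by simp)
  · exact fin5 2 (v 4 - v 0) (hv 4 0) (by norm_num) (by simp; ring) (by simp; ring)
  · exact fin5 2 (v 3 - v 4) (hv 3 4) (by norm_num) (by simp; ring) (by simp; ring)
  · exact fin5 2 (v 3 - v 0) (hv 3 0) (by norm_num) (by simp; ring) (by simp; ring)
  · exact fin5 2 (v 2 - v 3) (hv 2 3) (by norm_num) (by simp; ring) (by simp; ring)
  · exact fin5 (-2) (v 0 - v 2 + v 3 - v 4) (hQ 0 2 3 4 (by decide) (by decide) (by decide)) (by norm_num) (by simp; ring) (by simp; ring)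
  · exact fin5 2 (v 2 - v 4) (hv 2 4) (by norm_num) (by simp; ring) (by simp; ring)
  · exact fin5 2 (v 2 - v 0) (hv 2 0) (by norm_num) (by simp; ring) (by simp; ring)
  · exact fin5 2 (v 1 - v 2) (hv 1 2) (by norm_num) (by simp; ring) (by simp; ring)
  · exact fin5 (-2) (v 0 - v 1 + v 2 - v 4) (hQ 0 1 2 4 (by decide) (by decide) (by decide)) (by norm_num) (by simp; ring) (by simp; ring)
  · exact fin5 (2) (v 1 - v 2 + v 3 - v 4) (hQ 1 2 3 4 (by decide) (by decide) (by decide)) (by norm_num) (by simp; ring) (by simp; ring)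
  · exact fin5 (-2) (v 0 - v 1 + v 2 - v 3) (hQ 0 1 2 3 (by decide) (by decide) (by decide)) (by norm_num) (by simp; ring) (by simp; ring)
  · exact fin5 2 (v 1 - v 3) (hv 1 3) (by norm_num) (by simp; ring) (by simp; ring)
  · exact fin5 (-2) (v 0 - v 1 + v 3 - v 4) (hQ 0 1 3 4 (by decide) (by decide) (by decide)) (by norm_num) (by simp; ring) (by simp; ring)
  · exact fin5 2 (v 1 - v 4) (hv 1 4) (by norm_num) (by simp; ring) (by simp; ring)
  · exact fin5 2 (v 1 - v 0) (hv 1 0) (by norm_num) (by simp; ring) (by simp; ring)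
  · exact fin5 2 (v 0 - v 1) (hv 0 1) (by norm_num) (by simp; ring) (by simp; ring)
  · exact fin5 2 (v 4 - v 1) (hv 4 1) (by norm_num) (by simp; ring) (by simp; ring)
  · exact fin5 (2) (v 0 - v 1 + v 3 - v 4) (hQ 0 1 3 4 (by decide) (by decide) (by decide)) (by norm_num) (by simp; ring) (by simp; ring)
  · exact fin5 2 (v 3 - v 1) (hv 3 1) (by norm_num) (by simp; ring) (by simp; ring)
  · exact fin5 (2) (v 0 - v 1 + v 2 - v 3) (hQ 0 1 2 3 (by decide) (by decide) (by decide)) (by norm_num) (by simp; ring) (by simp; ring)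
  · exact fin5 (-2) (v 1 - v 2 + v 3 - v 4) (hQ 1 2 3 4 (by decide) (by decide) (by decide)) (by norm_num) (by simp; ring) (by simp; ring)
  · exact fin5 (2) (v 0 - v 1 + v 2 - v 4) (hQ 0 1 2 4 (by decide) (by decide) (by decide)) (by norm_num) (by simp; ring) (by simp; ring)
  · exact fin5 2 (v 2 - v 1) (hv 2 1) (by norm_num) (by simp; ring) (by simp; ring)
  · exact fin5 2 (v 0 - v 2) (hv 0 2) (by norm_num) (by simp; ring) (by simp; ring)
  · exact fin5 2 (v 4 - v 2) (hv 4 2) (by norm_num) (by simp; ring) (by simp; ring)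
  · exact fin5 (2) (v 0 - v 2 + v 3 - v 4) (hQ 0 2 3 4 (by decide) (by decide) (by decide)) (by norm_num) (by simp; ring) (by simp; ring)
  · exact fin5 2 (v 3 - v 2) (hv 3 2) (by norm_num) (by simp; ring) (by simp; ring)
  · exact fin5 2 (v 0 - v 3) (hv 0 3) (by norm_num) (by simp; ring) (by simp; ring)
  · exact fin5 2 (v 4 - v 3) (hv 4 3) (by norm_num) (by simp; ring) (by simp; ring)
  · exact fin5 2 (v 0 - v 4) (hv 0 4) (by norm_num) (by simp; ring) (by simp; ring)
  · exact fin5 2 (v 0 - v 0) (hv 0 0) (by norm_num) (by simp) (by simp)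

lemma Delta_five (v : Fin 5 → ℂ) :
    Delta v = (∏ i, ‖v (i + 1) - v i‖) ^ 2 * (∏ i, ‖v (i + 2) - v i‖) ^ 2 := by
  rw [Delta_eq]
  have a0 : (0 : Fin 5) + 1 = 1 := rfl
  have a1 : (1 : Fin 5) + 1 = 2 := rfl
  have a2 : (2 : Fin 5) + 1 = 3 := rfl
  have a3 : (3 : Fin 5) + 1 = 4 := rfl
  have a4 : (4 : Fin 5) + 1 = 0 := rfl
  have b0 : (0 : Fin 5) + 2 = 2 := rfl
  have b1 : (1 : Fin 5) + 2 = 3 := rfl
  have b2 : (2 : Fin 5) + 2 = 4 := rfl
  have b3 : (3 : Fin 5) + 2 = 0 := rfl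
  have b4 : (4 : Fin 5) + 2 = 1 := rfl
  simp only [Fin.prod_univ_five, a0, a1, a2, a3, a4, b0, b1, b2, b3, b4]
  rw [norm_sub_rev (v 1) (v 0), norm_sub_rev (v 2) (v 1), norm_sub_rev (v 3) (v 2),
    norm_sub_rev (v 4) (v 3), norm_sub_rev (v 2) (v 0), norm_sub_rev (v 3) (v 1),
    norm_sub_rev (v 4) (v 2), norm_sub_rev (v 4) (v 0), norm_sub_rev (v 3) (v 0),
    norm_sub_rev (v 4) (v 1)]
  simp only [Fin.reduceEq, if_true, if_false, one_mul, mul_one]
  ring

lemma amgm {a : Fin 5 → ℝ} {s : ℝ} (ha : ∀ i, 0 < a i) (hs : 0 < s) (hsum : ∑ i, a i ≤ 5 * s) :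
    ∏ i, a i ≤ s ^ 5 ∧ (s ^ 5 ≤ ∏ i, a i → ∀ i, a i = s) := by
  have hx : ∀ i, 0 < a i / s := fun i => div_pos (ha i) hs
  have hlog : ∑ i, Real.log (a i / s) = Real.log ((∏ i, a i) / s ^ 5) := by
    rw [← Real.log_prod (fun i _ => (hx i).ne')]
    rw [Finset.prod_div_distrib]
    simp
  have hsum2 : ∑ i, (a i / s - 1) ≤ 0 := by
    rw [Finset.sum_sub_distrib, ← Finset.sum_div]
    have : (∑ i, a i) / s ≤ 5 := by rw [div_le_iff₀ hs]; exact hsum
    simp
    linarith
  have hpos : 0 < (∏ i, a i) / s ^ 5 := div_pos (Finset.prod_pos fun i _ => ha i) (by positivity)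
  constructor
  · have h1 : ∑ i, Real.log (a i / s) ≤ 0 :=
      (Finset.sum_le_sum fun i _ => Real.log_le_sub_one_of_pos (hx i)).trans hsum2
    rw [hlog] at h1
    have h2 := (Real.log_nonpos_iff hpos.le).1 h1
    rwa [div_le_one (by positivity)] at h2
  · intro hge i
    by_contra hne
    have h1 : ∑ i, Real.log (a i / s) < ∑ i, (a i / s - 1) := by
      apply Finset.sum_lt_sum (fun i _ => Real.log_le_sub_one_of_pos (hx i))
      refine ⟨i, Finset.mem_univ i, Real.log_lt_sub_one_of_pos (hx i) ?_⟩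
      intro h
      rw [div_eq_one_iff_eq hs.ne'] at h
      exact hne h
    rw [hlog] at h1
    have h2 : 0 ≤ Real.log ((∏ i, a i) / s ^ 5) := by
      apply Real.log_nonneg
      rwa [le_div_iff₀ (by positivity), one_mul]
    linarith

/-- side of the regular pentagon of diameter two -/
noncomputable def sd : ℝ := Real.sqrt 5 - 1

lemma sqrt5_sq : Real.sqrt 5 ^ 2 = 5 := Real.sq_sqrt (by norm_num)

lemma sqrt5_gt : 2 < Real.sqrt 5 := by
  rw [Real.lt_sqrt (by norm_num)]; norm_num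

lemma sqrt5_lt : Real.sqrt 5 < 3 := by
  rw [Real.sqrt_lt' (by norm_num)]; norm_num

lemma sd_pos : 0 < sd := by unfold sd; linarith [sqrt5_gt]

lemma sin_pi_ten : Real.sin (Real.pi / 10) = sd / 4 := by
  have h1 : Real.cos (Real.pi / 5) = 1 - 2 * Real.sin (Real.pi / 10) ^ 2 := by
    have := Real.cos_two_mul (Real.pi / 10)
    have h2 : 2 * (Real.pi / 10) = Real.pi / 5 := by ring
    rw [h2] at this
    rw [this, Real.cos_sq']; ring
  rw [Real.cos_pi_div_five] at h1
  have h3 : 0 ≤ Real.sin (Real.pi / 10) :=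
    Real.sin_nonneg_of_nonneg_of_le_pi (by positivity) (by linarith [Real.pi_pos])
  have h4 : Real.sin (Real.pi / 10) ^ 2 = (sd / 4) ^ 2 := by
    unfold sd
    nlinarith [sqrt5_sq]
  exact (pow_left_inj₀ h3 (by have := sd_pos; positivity) two_ne_zero).1 h4

lemma cos_two : Real.cos (2 * Real.pi / 5) = (Real.sqrt 5 - 1) / 4 := by
  have h := Real.cos_two_mul (Real.pi / 5)
  rw [Real.cos_pi_div_five] at h
  have h2 : 2 * (Real.pi / 5) = 2 * Real.pi / 5 := by ring
  rw [h2] at h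
  rw [h]; nlinarith [sqrt5_sq]

lemma cos_four : Real.cos (4 * Real.pi / 5) = -(1 + Real.sqrt 5) / 4 := by
  have h : 4 * Real.pi / 5 = Real.pi - Real.pi / 5 := by ring
  rw [h, Real.cos_pi_sub, Real.cos_pi_div_five]; ring

lemma cos_six : Real.cos (6 * Real.pi / 5) = -(1 + Real.sqrt 5) / 4 := by
  have h : 6 * Real.pi / 5 = 2 * Real.pi - 4 * Real.pi / 5 := by ring
  rw [h, Real.cos_two_pi_sub, cos_four]

lemma cos_eight : Real.cos (8 * Real.pi / 5) = (Real.sqrt 5 - 1) / 4 := by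
  have h : 8 * Real.pi / 5 = 2 * Real.pi - 2 * Real.pi / 5 := by ring
  rw [h, Real.cos_two_pi_sub, cos_two]

/-- circumradius of the regular pentagon of diameter two -/
noncomputable def rad : ℝ := Real.sqrt (2 * (5 - Real.sqrt 5) / 5)

lemma rad_sq : rad ^ 2 = 2 * (5 - Real.sqrt 5) / 5 :=
  Real.sq_sqrt (by have := sqrt5_lt; apply div_nonneg <;> linarith)

/-- the regular pentagon of diameter two -/
noncomputable def pent : Fin 5 → ℂ := fun k =>
  (rad : ℂ) * Complex.exp (Complex.I * (((2 * Real.pi * ((k : ℕ) + 1) / 5 : ℝ)) : ℂ))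

lemma pent_dist (a b : Fin 5) : ‖pent a - pent b‖ ^ 2 =
    rad ^ 2 * (2 - 2 * Real.cos (2 * Real.pi * (((a : ℕ) : ℝ) - ((b : ℕ) : ℝ)) / 5)) := by
  have hexp : ∀ x : ℝ, Complex.exp (Complex.I * (x : ℂ)) = ⟨Real.cos x, Real.sin x⟩ := by
    intro x
    rw [mul_comm]
    exact Complex.ext (Complex.exp_ofReal_mul_I_re x) (Complex.exp_ofReal_mul_I_im x)
  rw [norm_sq_eq]
  unfold pent
  rw [hexp, hexp]
  set A : ℝ := 2 * Real.pi * ((a : ℕ) + 1) / 5 with hA
  set B : ℝ := 2 * Real.pi * ((b : ℕ) + 1) / 5 with hB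
  have h1 : 2 * Real.pi * (((a : ℕ) : ℝ) - ((b : ℕ) : ℝ)) / 5 = A - B := by rw [hA, hB]; ring
  rw [h1, Real.cos_sub]
  simp only [Complex.sub_re, Complex.sub_im, Complex.mul_re, Complex.mul_im, Complex.ofReal_re,
    Complex.ofReal_im, zero_mul, sub_zero, add_zero]
  have h2 := Real.sin_sq_add_cos_sq A
  have h3 := Real.sin_sq_add_cos_sq B
  linear_combination rad ^ 2 * h2 + rad ^ 2 * h3

lemma pent_side (i : Fin 5) : ‖pent (i + 1) - pent i‖ = sd := by
  have h := pent_dist (i + 1) i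
  have hc : Real.cos (2 * Real.pi * ((((i + 1 : Fin 5) : ℕ) : ℝ) - ((i : ℕ) : ℝ)) / 5) =
      (Real.sqrt 5 - 1) / 4 := by
    clear h
    have hi : ((i + 1 : Fin 5) : ℕ) = (i : ℕ) + 1 ∨ ((i + 1 : Fin 5) : ℕ) + 4 = (i : ℕ) := by
      revert i; decide
    rcases hi with hi | hi
    · have h2 : (((i + 1 : Fin 5) : ℕ) : ℝ) = ((i : ℕ) : ℝ) + 1 := by exact_mod_cast hi
      have h3 : 2 * Real.pi * ((((i + 1 : Fin 5) : ℕ) : ℝ) - ((i : ℕ) : ℝ)) / 5 =
          2 * Real.pi / 5 := by rw [h2]; ring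
      rw [h3, cos_two]
    · have h2 : (((i + 1 : Fin 5) : ℕ) : ℝ) + 4 = ((i : ℕ) : ℝ) := by exact_mod_cast hi
      have h3 : 2 * Real.pi * ((((i + 1 : Fin 5) : ℕ) : ℝ) - ((i : ℕ) : ℝ)) / 5 =
          -(8 * Real.pi / 5) := by rw [← h2]; ring
      rw [h3, Real.cos_neg, cos_eight]
  rw [hc, rad_sq] at h
  have h2 : ‖pent (i + 1) - pent i‖ ^ 2 = sd ^ 2 := by
    rw [h]; unfold sd; nlinarith [sqrt5_sq]
  exact (pow_left_inj₀ (norm_nonneg _) sd_pos.le two_ne_zero).1 h2

lemma pent_diag (i : Fin 5) : ‖pent (i + 2) - pent i‖ = 2 := by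
  have h := pent_dist (i + 2) i
  have hc : Real.cos (2 * Real.pi * ((((i + 2 : Fin 5) : ℕ) : ℝ) - ((i : ℕ) : ℝ)) / 5) =
      -(1 + Real.sqrt 5) / 4 := by
    clear h
    have hi : ((i + 2 : Fin 5) : ℕ) = (i : ℕ) + 2 ∨ ((i + 2 : Fin 5) : ℕ) + 3 = (i : ℕ) := by
      revert i; decide
    rcases hi with hi | hi
    · have h2 : (((i + 2 : Fin 5) : ℕ) : ℝ) = ((i : ℕ) : ℝ) + 2 := by exact_mod_cast hi
      have h3 : 2 * Real.pi * ((((i + 2 : Fin 5) : ℕ) : ℝ) - ((i : ℕ) : ℝ)) / 5 =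
          4 * Real.pi / 5 := by rw [h2]; ring
      rw [h3, cos_four]
    · have h2 : (((i + 2 : Fin 5) : ℕ) : ℝ) + 3 = ((i : ℕ) : ℝ) := by exact_mod_cast hi
      have h3 : 2 * Real.pi * ((((i + 2 : Fin 5) : ℕ) : ℝ) - ((i : ℕ) : ℝ)) / 5 =
          -(6 * Real.pi / 5) := by rw [← h2]; ring
      rw [h3, Real.cos_neg, cos_six]
  rw [hc, rad_sq] at h
  have h2 : ‖pent (i + 2) - pent i‖ ^ 2 = 2 ^ 2 := by
    rw [h]; nlinarith [sqrt5_sq]
  exact (pow_left_inj₀ (norm_nonneg _) (by norm_num) two_ne_zero).1 h2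

lemma pent_adm : Adm pent := by
  intro a b
  have hsd : sd ≤ 2 := by unfold sd; linarith [sqrt5_lt]
  have hab : a = b ∨ a = b + 1 ∨ b = a + 1 ∨ a = b + 2 ∨ b = a + 2 := by
    revert a b; decide
  rcases hab with h | h | h | h | h
  · rw [h]; simp
  · rw [h, pent_side]; exact hsd
  · rw [h, norm_sub_rev, pent_side]; exact hsd
  · rw [h, pent_diag]
  · rw [h, norm_sub_rev, pent_diag]

lemma pent_regular : IsRegularPolygon pent := by
  refine ⟨0, rad, 0, Real.sqrt_nonneg _, fun k => ?_⟩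
  unfold pent
  push_cast
  rw [zero_add, zero_add]

lemma pent_Delta : Delta pent = (2 * sd) ^ 10 := by
  rw [Delta_five]
  simp only [pent_side, pent_diag, Finset.prod_const, Finset.card_univ, Fintype.card_fin]
  ring

/-- maximisers, in a suitable order, have all sides `√5 - 1` and all diagonals `2` -/
lemma maximiser_struct {z : Fin 5 → ℂ} (hz : IsMaximiser z) :
    Delta z = (2 * sd) ^ 10 ∧ ∃ σ : Equiv.Perm (Fin 5),
      (∀ i j k, i < j → j < k → 0 < orient (z (σ i)) (z (σ j)) (z (σ k))) ∧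
      (∀ i, ‖z (σ (i + 1)) - z (σ i)‖ = sd) ∧ ∀ i, ‖z (σ (i + 2)) - z (σ i)‖ = 2 := by
  have hge : (2 * sd) ^ 10 ≤ Delta z := by
    rw [← pent_Delta]; exact hz.2 _ pent_adm
  have hsd := sd_pos
  have hpos : 0 < Delta z := lt_of_lt_of_le (by positivity) hge
  have hinj := injective_of_pos hpos
  obtain ⟨σ, hσ⟩ := exists_order hz.1 hinj (partner (by norm_num) hz hpos)
  have hadm : Adm (z ∘ σ) := fun i j => hz.1 _ _
  have hper := perimeter hadm hσ
  have hD : Delta z = (∏ i, ‖z (σ (i + 1)) - z (σ i)‖) ^ 2 *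
      (∏ i, ‖z (σ (i + 2)) - z (σ i)‖) ^ 2 := by
    rw [← Delta_perm z σ, Delta_five]
    rfl
  have hne1 : ∀ i : Fin 5, i + 1 ≠ i := by decide
  have hne2 : ∀ i : Fin 5, i + 2 ≠ i := by decide
  have hposd : ∀ i j : Fin 5, j ≠ i → 0 < ‖z (σ j) - z (σ i)‖ := by
    intro i j hij
    rw [norm_pos_iff, sub_ne_zero]
    exact fun h => hij (σ.injective (hinj h))
  have hs1 := amgm (a := fun i => ‖z (σ (i + 1)) - z (σ i)‖) (s := sd)
    (fun i => hposd _ _ (hne1 i)) hsd (by
      rw [sin_pi_ten] at hper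
      simp only [Function.comp_apply] at hper
      linarith)
  have hs2 := amgm (a := fun i => ‖z (σ (i + 2)) - z (σ i)‖) (s := 2)
    (fun i => hposd _ _ (hne2 i)) (by norm_num) (by
      calc ∑ i, ‖z (σ (i + 2)) - z (σ i)‖ ≤ ∑ _i : Fin 5, (2 : ℝ) :=
            Finset.sum_le_sum fun i _ => hz.1 _ _
        _ = 5 * 2 := by simp)
  set P := ∏ i, ‖z (σ (i + 1)) - z (σ i)‖ with hP
  set Q := ∏ i, ‖z (σ (i + 2)) - z (σ i)‖ with hQ
  have hP0 : 0 < P := Finset.prod_pos fun i _ => hposd _ _ (hne1 i)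
  have hQ0 : 0 < Q := Finset.prod_pos fun i _ => hposd _ _ (hne2 i)
  have hPQ : P * Q ≤ sd ^ 5 * 2 ^ 5 := mul_le_mul hs1.1 hs2.1 hQ0.le (by positivity)
  have hle : Delta z ≤ (2 * sd) ^ 10 := by
    rw [hD]
    calc P ^ 2 * Q ^ 2 = (P * Q) ^ 2 := by ring
      _ ≤ (sd ^ 5 * 2 ^ 5) ^ 2 := pow_le_pow_left₀ (by positivity) hPQ 2
      _ = (2 * sd) ^ 10 := by ring
  have hPQ2 : sd ^ 5 * 2 ^ 5 ≤ P * Q := by
    have h1 : (sd ^ 5 * 2 ^ 5) ^ 2 ≤ (P * Q) ^ 2 := by
      calc (sd ^ 5 * 2 ^ 5) ^ 2 = (2 * sd) ^ 10 := by ring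
        _ ≤ Delta z := hge
        _ = (P * Q) ^ 2 := by rw [hD]; ring
    exact (pow_le_pow_iff_left₀ (by positivity) (by positivity) two_ne_zero).1 h1
  refine ⟨le_antisymm hle hge, σ, hσ, hs1.2 ?_, hs2.2 ?_⟩
  · by_contra hcon
    push Not at hcon
    have : P * Q < sd ^ 5 * 2 ^ 5 := by
      calc P * Q < sd ^ 5 * Q := mul_lt_mul_of_pos_right hcon hQ0
        _ ≤ sd ^ 5 * 2 ^ 5 := mul_le_mul_of_nonneg_left hs2.1 (by positivity)
    linarith
  · by_contra hcon
    push Not at hcon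
    have : P * Q < sd ^ 5 * 2 ^ 5 := by
      calc P * Q ≤ sd ^ 5 * Q := mul_le_mul_of_nonneg_right hs1.1 hQ0.le
        _ < sd ^ 5 * 2 ^ 5 := mul_lt_mul_of_pos_left hcon (by positivity)
    linarith

/-- consecutive edges are related by the rotation by `2π/5` -/
lemma rot {x y : ℂ} (hx : ‖x‖ = sd) (hy : ‖y‖ = sd) (hxy : ‖x + y‖ = 2)
    (hc : 0 < x.re * y.im - x.im * y.re) :
    y = x * Complex.exp (Complex.I * ((2 * Real.pi / 5 : ℝ) : ℂ)) := by
  have h1 := norm_sq_eq x
  have h2 := norm_sq_eq y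
  have h3 := norm_sq_eq (x + y)
  rw [hx] at h1
  rw [hy] at h2
  rw [hxy, Complex.add_re, Complex.add_im] at h3
  have hC := cos_two
  have hSC := Real.sin_sq_add_cos_sq (2 * Real.pi / 5)
  have hS : 0 < Real.sin (2 * Real.pi / 5) :=
    Real.sin_pos_of_pos_of_lt_pi (by positivity) (by linarith [Real.pi_pos])
  set C := Real.cos (2 * Real.pi / 5) with hCdef
  set S := Real.sin (2 * Real.pi / 5) with hSdef
  have hsd := sd_pos
  have h5 := sqrt5_sq
  have hsC : sd ^ 2 * C = 2 - sd ^ 2 := by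
    rw [hC]; unfold sd; nlinarith
  have hdot : x.re * y.re + x.im * y.im = sd ^ 2 * C := by
    rw [hsC]; linarith
  have hcr2 : (x.re * y.im - x.im * y.re) ^ 2 = (sd ^ 2 * S) ^ 2 := by
    have e1 : (x.re * y.im - x.im * y.re) ^ 2 + (x.re * y.re + x.im * y.im) ^ 2 =
        (x.re ^ 2 + x.im ^ 2) * (y.re ^ 2 + y.im ^ 2) := by ring
    rw [← h1, ← h2, hdot] at e1
    have e2 : (sd ^ 2 * S) ^ 2 = sd ^ 2 * sd ^ 2 - (sd ^ 2 * C) ^ 2 := by
      linear_combination (sd ^ 2 * sd ^ 2) * hSC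
    rw [e2]; linarith
  have hcr : x.re * y.im - x.im * y.re = sd ^ 2 * S :=
    (pow_left_inj₀ hc.le (by positivity) two_ne_zero).1 hcr2
  have hne : sd ^ 2 ≠ 0 := by positivity
  have hre : y.re = x.re * C - x.im * S := by
    apply mul_left_cancel₀ hne
    linear_combination y.re * h1 + x.re * hdot - x.im * hcr
  have him : y.im = x.re * S + x.im * C := by
    apply mul_left_cancel₀ hne
    linear_combination y.im * h1 + x.im * hdot + x.re * hcr
  have hexp : Complex.exp (Complex.I * ((2 * Real.pi / 5 : ℝ) : ℂ)) = ⟨C, S⟩ := by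
    rw [mul_comm]
    exact Complex.ext (Complex.exp_ofReal_mul_I_re _) (Complex.exp_ofReal_mul_I_im _)
  rw [hexp]
  apply Complex.ext
  · simp only [Complex.mul_re]; exact hre
  · simp only [Complex.mul_im]; exact him

lemma maximiser_regular {z : Fin 5 → ℂ} (hz : IsMaximiser z) :
    ∃ σ : Equiv.Perm (Fin 5), IsRegularPolygon (z ∘ σ) := by
  obtain ⟨-, σ, ho, h1, h2⟩ := maximiser_struct hz
  refine ⟨σ, ?_⟩
  set v : Fin 5 → ℂ := z ∘ σ with hv
  have hv1 : ∀ i, ‖v (i + 1) - v i‖ = sd := h1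
  have hv2 : ∀ i, ‖v (i + 2) - v i‖ = 2 := h2
  have hvo : ∀ i j k, i < j → j < k → 0 < orient (v i) (v j) (v k) := ho
  set ω : ℂ := Complex.exp (Complex.I * ((2 * Real.pi / 5 : ℝ) : ℂ)) with hω
  have step : ∀ i : Fin 5, i < i + 1 → i + 1 < i + 1 + 1 →
      v (i + 1 + 1) - v (i + 1) = (v (i + 1) - v i) * ω := by
    intro i hi hi2
    apply rot (hv1 i) (hv1 (i + 1))
    · have : v (i + 1) - v i + (v (i + 1 + 1) - v (i + 1)) = v (i + 2) - v i := by
        have h3 : i + 1 + 1 = i + 2 := by rw [add_assoc]; rfl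
        rw [h3]; ring
      rw [this]; exact hv2 i
    · have := hvo i (i + 1) (i + 1 + 1) hi hi2
      simp only [orient] at this
      simp only [Complex.sub_re, Complex.sub_im]
      linarith
  have s0 : v 2 - v 1 = (v 1 - v 0) * ω := step 0 (by decide) (by decide)
  have s1 : v 3 - v 2 = (v 2 - v 1) * ω := step 1 (by decide) (by decide)
  have s2 : v 4 - v 3 = (v 3 - v 2) * ω := step 2 (by decide) (by decide)
  have hω1 : ω - 1 ≠ 0 := by
    intro h
    have h3 : v 2 - v 1 = v 1 - v 0 := by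
      rw [s0]; linear_combination (v 1 - v 0) * h
    have h4 : ‖v 2 - v 0‖ = 2 * sd := by
      have : v 2 - v 0 = 2 * (v 1 - v 0) := by linear_combination h3
      have h6 := hv1 0
      rw [zero_add] at h6
      rw [this, norm_mul, h6]
      norm_num
    have h5 := hv2 0
    rw [zero_add] at h5
    rw [h5] at h4
    have : sd < 1 ∨ 1 < sd := by right; unfold sd; linarith [sqrt5_gt]
    rcases this with h | h <;> linarith
  set ρ : ℂ := (v 1 - v 0) / (ω - 1) with hρ
  have hρ1 : ρ * (ω - 1) = v 1 - v 0 := by rw [hρ]; field_simp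
  have hform : ∀ k : Fin 5, v k = (v 0 - ρ) + ρ * ω ^ (k : ℕ) := by
    have e0 : v 0 = (v 0 - ρ) + ρ * ω ^ 0 := by ring
    have e1 : v 1 = (v 0 - ρ) + ρ * ω ^ 1 := by linear_combination -hρ1
    have e2 : v 2 = (v 0 - ρ) + ρ * ω ^ 2 := by linear_combination s0 + e1 - ω * hρ1
    have e3 : v 3 = (v 0 - ρ) + ρ * ω ^ 3 := by
      linear_combination s1 + ω * s0 + e2 - ω ^ 2 * hρ1
    have e4 : v 4 = (v 0 - ρ) + ρ * ω ^ 4 := by
      linear_combination s2 + ω * s1 + ω ^ 2 * s0 + e3 - ω ^ 3 * hρ1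
    intro k
    fin_cases k
    · exact e0
    · exact e1
    · exact e2
    · exact e3
    · exact e4
  refine ⟨v 0 - ρ, ‖ρ‖, Complex.arg ρ - 2 * Real.pi / 5, norm_nonneg _, fun k => ?_⟩
  rw [hform k]
  congr 1
  have h3 : (Complex.I * (((Complex.arg ρ - 2 * Real.pi / 5 : ℝ) : ℂ) +
      2 * Real.pi * ((k : ℕ) + 1) / (5 : ℕ))) =
      Complex.arg ρ * Complex.I + (k : ℕ) * (Complex.I * ((2 * Real.pi / 5 : ℝ) : ℂ)) := by
    push_cast
    ring
  rw [h3, Complex.exp_add, Complex.exp_nat_mul, ← mul_assoc, Complex.norm_mul_exp_arg_mul_I]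

lemma pent_maximiser : IsMaximiser pent := by
  obtain ⟨z, hz⟩ := exists_maximiser 4
  have hD := (maximiser_struct hz).1
  refine ⟨pent_adm, fun w hw => ?_⟩
  rw [pent_Delta, ← hD]
  exact hz.2 w hw

end Pool.Agent.Results.MP_d975fc_co.Pentagon

open Pool.Agent.Results.MP_d975fc_co.Pentagon in
theorem Pool.Agent.Results.MP_d975fc_co.Pentagon.result :
    (∃ z : Fin 5 → ℂ, IsRegularPolygon z ∧ IsMaximiser z) ∧
    (∀ z : Fin 5 → ℂ, IsMaximiser z → ∃ σ : Equiv.Perm (Fin 5), IsRegularPolygon (z ∘ σ)) :=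
  ⟨⟨pent, pent_regular, pent_maximiser⟩, fun _ hz => maximiser_regular hz⟩
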